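import Mathlib
import Pool.Agent.H29.UngE

namespace Pool.Agent.Results.MP_0815b2_gt.Diam

open Set

/-- the Euclidean plane -/
abbrev Plane := EuclideanSpace ℝ (Fin 2)

/-- a plane convex figure: compact, convex, with nonempty interior -/
def ConvexFigure (F : Set Plane) : Prop := IsCompact F ∧ Convex ℝ F ∧ (interior F).Nonempty

/-- `γ` is a continuous simple closed curve of period `T` whose image is the boundary of `F` -/
def BoundaryCurve (F : Set Plane) (γ : ℝ → Plane) (T : ℝ) : Prop :=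
  0 < T ∧ Continuous γ ∧ (∀ s t, γ s = γ t ↔ ∃ k : ℤ, t = s + k * T) ∧ range γ = frontier F

/-- the arc of `γ` with parameters in `[s, t]` has length `l` (supremum of inscribed polygons) -/
def ArcLength (γ : ℝ → Plane) (s t l : ℝ) : Prop := eVariationOn γ (Icc s t) = ENNReal.ofReal l

/-- the perimeter is `L`, and the points `γ t₀, γ t₁, γ t₂, γ t₃` follow each other in this order
along the closed curve and cut it into four arcs of length `L / 4` -/
def Quadrisect (γ : ℝ → Plane) (T L t₀ t₁ t₂ t₃ : ℝ) : Prop :=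
  t₀ < t₁ ∧ t₁ < t₂ ∧ t₂ < t₃ ∧ t₃ < t₀ + T ∧ ArcLength γ t₀ (t₀ + T) L ∧
    ArcLength γ t₀ t₁ (L / 4) ∧ ArcLength γ t₁ t₂ (L / 4) ∧ ArcLength γ t₂ t₃ (L / 4) ∧
    ArcLength γ t₃ (t₀ + T) (L / 4)

theorem result (F : Set Plane) (hF : ConvexFigure F) (γ : ℝ → Plane) (T : ℝ)
    (hγ : BoundaryCurve F γ T) (L t₀ t₁ t₂ t₃ : ℝ) (hq : Quadrisect γ T L t₀ t₁ t₂ t₃)
    (hperp : inner ℝ (γ t₀ - γ t₂) (γ t₁ - γ t₃) = 0) :
    Metric.diam F ≤ dist (γ t₀) (γ t₂) + dist (γ t₁) (γ t₃) := by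
  obtain ⟨h01, h12, h23, h30, v0, v1, v2, v3, v4⟩ := hq
  have h : H29.UngD.Loop F γ T := ⟨hF.1, hF.2.1, hγ.1, hγ.2.1, hγ.2.2.1, hγ.2.2.2⟩
  have a := (h.ungar h01 h12 h23 h30 v1 v2 v3 v4 hperp).1
  have l0 := H29.UngE.len_nonneg h h01 (by linarith) v1
  have b := H29.UngE.diam_le h (by linarith) v0
  linarith

end Pool.Agent.Results.MP_0815b2_gt.Diam
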